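import Mathlib
import Pool.Agent.helper81.DI.SpecA

/-! Module `A14` of project di (MP_baa4d7_al): transport of `O_p` along an injective homomorphism. -/

set_option autoImplicit false

namespace Pool.Agent.DI

open Pool.Agent.helper58.DC

theorem A14_le {G : Type} [Group G] (H Q : Subgroup G) :
    H ≤ Subgroup.normalizer (Q : Set G) ↔ ∀ x ∈ H, ∀ h ∈ Q, x * h * x⁻¹ ∈ Q := by
  constructor
  · intro h x hx y hy
    exact ((Subgroup.mem_normalizer_iff.1 (h hx)) y).1 hy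
  · intro h x hx
    rw [Subgroup.mem_normalizer_iff]
    intro y
    refine ⟨fun hy => h x hx y hy, fun hy => ?_⟩
    have h2 := h x⁻¹ (H.inv_mem hx) _ hy
    have e : x⁻¹ * (x * y * x⁻¹) * x⁻¹⁻¹ = y := by group
    rwa [e] at h2

theorem A14_mem {K Γ : Type} [Group K] [Group Γ] (i : K →* Γ) (hi : Function.Injective i)
    (Q : Subgroup K) (x : K) : i x ∈ Q.map i ↔ x ∈ Q := by
  constructor
  · rintro ⟨y, hy, hxy⟩
    rw [← hi hxy]
    exact hy
  · intro hx
    exact ⟨x, hx, rfl⟩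

theorem A14_norm {K Γ : Type} [Group K] [Group Γ] (i : K →* Γ) (hi : Function.Injective i)
    (H Q : Subgroup K) : H ≤ Subgroup.normalizer (Q : Set K) ↔
    H.map i ≤ Subgroup.normalizer ((Q.map i : Subgroup Γ) : Set Γ) := by
  rw [A14_le, A14_le]
  constructor
  · rintro h _ ⟨x, hx, rfl⟩ _ ⟨y, hy, rfl⟩
    rw [← map_mul, ← map_inv, ← map_mul]
    exact (A14_mem i hi Q _).2 (h x hx y hy)
  · intro h x hx y hy
    have h2 := h (i x) ⟨x, hx, rfl⟩ (i y) ⟨y, hy, rfl⟩
    rw [← map_mul, ← map_inv, ← map_mul] at h2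
    exact (A14_mem i hi Q _).1 h2

theorem A14_pg {K Γ : Type} [Group K] [Group Γ] (p : ℕ) (i : K →* Γ)
    (hi : Function.Injective i) (Q : Subgroup K) : IsPGroup p Q ↔ IsPGroup p (Q.map i) :=
  ⟨fun h => h.of_equiv (Q.equivMapOfInjective i hi),
    fun h => h.of_equiv (Q.equivMapOfInjective i hi).symm⟩

theorem A14_map {K Γ : Type} [Group K] [Group Γ] (p : ℕ) (i : K →* Γ)
    (hi : Function.Injective i) (H P : Subgroup K) :
    IsOp p H P ↔ IsOp p (H.map i) (P.map i) := by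
  have hle : ∀ A B : Subgroup K, A ≤ B ↔ A.map i ≤ B.map i := fun A B =>
    (Subgroup.map_le_map_iff_of_injective hi).symm
  have hS : ∀ Q : Subgroup K, (Q ≤ H ∧ IsPGroup p Q ∧ H ≤ Subgroup.normalizer (Q : Set K)) ↔
      (Q.map i ≤ H.map i ∧ IsPGroup p (Q.map i) ∧
        H.map i ≤ Subgroup.normalizer ((Q.map i : Subgroup Γ) : Set Γ)) := fun Q =>
    and_congr (hle Q H) (and_congr (A14_pg p i hi Q) (A14_norm i hi H Q))
  constructor
  · rintro ⟨h1, h2⟩
    refine ⟨(hS P).1 h1, ?_⟩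
    rintro Q' hQ'
    have hr : Q' ≤ i.range := hQ'.1.trans (by
      rw [MonoidHom.range_eq_map]
      exact Subgroup.map_mono le_top)
    have e : (Q'.comap i).map i = Q' := Subgroup.map_comap_eq_self hr
    have h3 : (Q'.comap i) ≤ P := h2 ((hS _).2 (by rw [e]; exact hQ'))
    rw [← e]
    exact Subgroup.map_mono h3
  · rintro ⟨h1, h2⟩
    refine ⟨(hS P).2 h1, ?_⟩
    intro Q hQ
    exact (hle Q P).2 (h2 ((hS Q).1 hQ))

theorem A14_bot {K Γ : Type} [Group K] [Group Γ] (p : ℕ) (i : K →* Γ)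
    (hi : Function.Injective i) :
    IsOp p (⊤ : Subgroup K) ⊥ ↔ IsOp p i.range ⊥ := by
  rw [A14_map p i hi ⊤ ⊥, Subgroup.map_bot, MonoidHom.range_eq_map]

theorem A14 : A14_stmt := by
  intro K Γ _ _ p i hi
  refine ⟨A14_map p i hi, A14_bot p i hi, fun L => ?_⟩
  rw [A14_bot p L.subtype L.subtype_injective, Subgroup.range_subtype]

end Pool.Agent.DI
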